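import Pool.Agent.L7h48.SGP.GL

/-!
# Project SGP, part INJ: `Good` passes to the cyclic cubic extensions unramified outside `3`
-/

set_option autoImplicit false
set_option linter.unusedSectionVars false

namespace Pool.Agent.L7h69.SGP

open Pool.Agent.Y715.Gi (QB KK GK)
open Pool.Agent.Y715.Nr Pool.Agent.W237.RK
open Pool.Agent.Y715.Df (Cmp exists_cmp)
open Pool.Agent.Z384 (II DD DDs KK_ex fixK exists_conj norm_gen norm_rat)
open Pool.Agent.L7h48.SG Pool.Agent.L7h48.SGP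

variable {s : QB}

/-- the elements of the field `M` of `ψ` -/
def FF (ψ : GK s → ZMod 3) (x : QB) : Prop := ∀ σ : GK s, ψ σ = 0 → σ x = x

lemma RR.inv {x : QB} (hx : RR x) : RR x⁻¹ := by
  intro q _ ι hq
  obtain ⟨m, hm⟩ := hx q ι hq
  exact ⟨-m, by rw [map_inv₀, norm_inv, inv_pow, hm, zpow_neg]⟩

/-- `RR` depends only on the cube -/
lemma RR.cube {x y : QB} (h : x ^ 3 = y ^ 3) (hy : RR y) : RR x := by
  intro q _ ι hq
  obtain ⟨m, hm⟩ := hy q ι hq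
  refine ⟨m, ?_⟩
  rw [← hm]
  have h1 : ‖ι x‖ ^ 3 = ‖ι y‖ ^ 3 := by
    rw [← norm_pow, ← norm_pow, ← map_pow, ← map_pow, h]
  rw [(pow_left_inj₀ (norm_nonneg _) (norm_nonneg _) (by norm_num)).1 h1]

section

variable {ψ : GK s → ZMod 3}

lemma FF.mul {x y : QB} (hx : FF ψ x) (hy : FF ψ y) : FF ψ (x * y) := by
  intro σ h
  rw [map_mul, hx σ h, hy σ h]

lemma FF.add {x y : QB} (hx : FF ψ x) (hy : FF ψ y) : FF ψ (x + y) := by
  intro σ h
  rw [map_add, hx σ h, hy σ h]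

lemma FF.div {x y : QB} (hx : FF ψ x) (hy : FF ψ y) : FF ψ (x / y) := by
  intro σ h
  rw [map_div₀, hx σ h, hy σ h]

lemma FF.one : FF ψ 1 := by
  intro σ _
  rw [map_one]

lemma psi_one (hm : ∀ σ τ, ψ (σ * τ) = ψ σ + ψ τ) : ψ 1 = 0 := by
  have h := hm 1 1
  rw [mul_one] at h
  exact left_eq_add.1 h

lemma psi_inv (hm : ∀ σ τ, ψ (σ * τ) = ψ σ + ψ τ) (σ : GK s) : ψ σ⁻¹ = -ψ σ := by
  have h := hm σ⁻¹ σ
  rw [inv_mul_cancel, psi_one hm] at h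
  exact eq_neg_of_add_eq_zero_left h.symm

lemma FF.map (hm : ∀ σ τ, ψ (σ * τ) = ψ σ + ψ τ) {x : QB} (hx : FF ψ x) (g : GK s) :
    FF ψ (g x) := by
  intro σ h
  have h1 : ψ (g⁻¹ * σ * g) = 0 := by
    rw [hm, hm, psi_inv hm, h]
    ring
  have h2 := congrArg g (hx _ h1)
  rw [← AlgEquiv.mul_apply, ← mul_assoc, ← mul_assoc, mul_inv_cancel, one_mul,
    AlgEquiv.mul_apply] at h2
  exact h2

/-- an element fixed by `ker ψ` and `ρ` is in `K` -/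
lemma mem_KK (hm : ∀ σ τ, ψ (σ * τ) = ψ σ + ψ τ) {ρ : GK s} (hρ : ψ ρ = 1) {x : QB}
    (hx : FF ψ x) (h : ρ x = x) : x ∈ KK s := by
  have h3 : ∀ a : ZMod 3, a = 0 ∨ a = 1 ∨ a = -1 := by decide
  have h1 : ∀ σ : GK s, σ x = x := by
    intro σ
    rcases h3 (ψ σ) with h4 | h4 | h4
    · exact hx σ h4
    · have h5 : ψ (σ * ρ⁻¹) = 0 := by
        rw [hm, psi_inv hm, h4, hρ]
        ring
      have h6 := hx _ h5
      have h7 : (ρ⁻¹ : GK s) x = x := by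
        have := congrArg (ρ⁻¹ : GK s) h
        rw [← AlgEquiv.mul_apply, inv_mul_cancel, AlgEquiv.one_apply] at this
        exact this.symm
      rwa [AlgEquiv.mul_apply, h7] at h6
    · have h5 : ψ (σ * ρ) = 0 := by
        rw [hm, h4, hρ]
        ring
      have h6 := hx _ h5
      rwa [AlgEquiv.mul_apply, h] at h6
  obtain ⟨t, ht⟩ := (InfiniteGalois.mem_bot_iff_fixed (k := KK s) (K := QB) x).2 h1
  have ht' : ((t : KK s) : QB) = x := ht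
  rw [← ht']
  exact t.2

/-- a cube root of unity fixed by an element which moves `√-3` is one -/
lemma root_one {w ζ : QB} (hw : w ^ 2 = -3) (hζ : ζ ^ 3 = 1) {δ : GK s} (hδ : δ w = -w)
    (h : δ ζ = ζ) : ζ = 1 := by
  have hw0 := w_ne' hw
  rcases root_or hw hζ with h1 | h1 | h1
  · exact h1
  · exfalso
    have h2 := congrArg δ h1
    rw [map_add, map_mul, map_one, map_ofNat, h, hδ, h1] at h2
    exact hw0 (by linear_combination (1 / 2 : QB) * h2)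
  · exfalso
    have h2 := congrArg δ h1
    rw [map_add, map_mul, map_one, map_ofNat, h, map_neg, hδ, neg_neg, h1] at h2
    exact hw0 (by linear_combination (-1 / 2 : QB) * h2)

/-- the hypotheses on an element of `M` -/
structure Hy (ψ : GK s → ZMod 3) (ι₀ : QB →ₐ[ℚ] PadicAlgCl 3) (b : QB) : Prop where
  ne : b ≠ 0
  rr : ∀ x : QB, x ^ 3 = b → RR x
  ff : FF ψ b
  loc : ∀ g : GK s, ∃ y : QB, y ^ 3 = g b ∧ ∀ σ ∈ (DDs ι₀ : Subgroup (GK s)), ψ σ = 0 → σ y = y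

lemma Hy.step (hm : ∀ σ τ, ψ (σ * τ) = ψ σ + ψ τ) {ι₀ : QB →ₐ[ℚ] PadicAlgCl 3} {b : QB}
    (h : Hy ψ ι₀ b) (ρ : GK s) : Hy ψ ι₀ (ρ b / b) where
  ne := div_ne_zero ((map_ne_zero ρ).2 h.ne) h.ne
  rr := by
    intro x hx
    obtain ⟨u, hu, -⟩ := h.loc 1
    rw [AlgEquiv.one_apply] at hu
    have h1 : RR u := h.rr u hu
    have h2 : RR (ρ u) := RR.map h1 (ρ.restrictScalars ℚ)
    refine RR.cube (y := ρ u * u⁻¹) ?_ (h2.mul (RR.inv h1))
    rw [hx, mul_pow, ← map_pow, inv_pow, hu]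
    rfl
  ff := (h.ff.map hm ρ).div h.ff
  loc := by
    intro g
    obtain ⟨y, hy, hyf⟩ := h.loc (g * ρ)
    obtain ⟨y', hy', hyf'⟩ := h.loc g
    refine ⟨y / y', ?_, fun σ h1 h2 => ?_⟩
    · rw [div_pow, hy, hy', map_div₀, AlgEquiv.mul_apply]
    · rw [map_div₀, hyf σ h1 h2, hyf' σ h1 h2]

end

/-- the descent step -/
lemma descent {D : ℕ} (hS : Spl 3 s D) {ι₀ : QB →ₐ[ℚ] PadicAlgCl 3} (hG : Good s ι₀)
    {ψ : GK s → ZMod 3} (hm : ∀ σ τ, ψ (σ * τ) = ψ σ + ψ τ) (hR : ∀ σ, Ram 3 σ → ψ σ = 0)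
    {w : QB} (hw : w ^ 2 = -3) {ρ : GK s} (hρ : ψ ρ = 1) {α : QB} (hα : FF ψ α) (hαρ : ρ α ≠ α)
    {b : QB} (hb : Hy ψ ι₀ b) (hc : ∃ z, FF ψ z ∧ z ^ 3 = ρ b / b) :
    ∃ y, FF ψ y ∧ y ^ 3 = b := by
  obtain ⟨z, hzF, hz⟩ := hc
  have hb0 := hb.ne
  have hρ3 : ∀ x, FF ψ x → ρ (ρ (ρ x)) = x := by
    intro x hx
    have h1 : ψ (ρ * (ρ * ρ)) = 0 := by
      rw [hm, hm, hρ]
      decide
    have h2 := hx _ h1
    rwa [AlgEquiv.mul_apply, AlgEquiv.mul_apply] at h2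
  obtain ⟨τ, hτD, hτ⟩ := exists_dec hS hw ι₀
  have hw0 := w_ne' hw
  have hρb0 : ρ b ≠ 0 := (map_ne_zero ρ).2 hb0
  have hρρb0 : ρ (ρ b) ≠ 0 := (map_ne_zero ρ).2 hρb0
  have hz0 : z ≠ 0 := by
    rintro rfl
    rw [zero_pow (by norm_num)] at hz
    exact div_ne_zero hρb0 hb0 hz.symm
  -- the norm of `z`
  have hzρF := hzF.map hm ρ
  have hzρρF := hzρF.map hm ρ
  have hn : z * ρ z * ρ (ρ z) = 1 := by
    have h1 : FF ψ (z * ρ z * ρ (ρ z)) := (hzF.mul hzρF).mul hzρρF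
    have h2 : ρ (z * ρ z * ρ (ρ z)) = z * ρ z * ρ (ρ z) := by
      rw [map_mul, map_mul, hρ3 z hzF]
      ring
    have h3 : z * ρ z * ρ (ρ z) ∈ KK s := mem_KK hm hρ h1 h2
    refine root_one hw ?_ hτ (fixK τ h3)
    have e1 : (z * ρ z * ρ (ρ z)) ^ 3 = z ^ 3 * ρ (z ^ 3) * ρ (ρ (z ^ 3)) := by
      simp only [map_pow]
      ring
    rw [e1, hz]
    simp only [map_div₀]
    rw [hρ3 b hb.ff]
    field_simp
  -- Hilbert 90
  obtain ⟨e, heF, he0, he⟩ : ∃ e, FF ψ e ∧ e ≠ 0 ∧ z * ρ e = e := by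
    have key : ∀ θ, FF ψ θ → FF ψ (θ + z * ρ θ + z * ρ z * ρ (ρ θ)) ∧
        z * ρ (θ + z * ρ θ + z * ρ z * ρ (ρ θ)) = θ + z * ρ θ + z * ρ z * ρ (ρ θ) := by
      intro θ hθ
      refine ⟨(hθ.add (hzF.mul (hθ.map hm ρ))).add
        ((hzF.mul hzρF).mul ((hθ.map hm ρ).map hm ρ)), ?_⟩
      rw [map_add, map_add, map_mul, map_mul, map_mul, hρ3 θ hθ]
      linear_combination θ * hn
    by_contra hcon
    push Not at hcon
    have h0 : ∀ θ, FF ψ θ → θ + z * ρ θ + z * ρ z * ρ (ρ θ) = 0 := by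
      intro θ hθ
      by_contra hne
      exact hcon _ (key θ hθ).1 hne (key θ hθ).2
    have h1 := h0 1 FF.one
    have h2 := h0 α hα
    have h3 := h0 (α * α) (hα.mul hα)
    rw [map_mul, map_mul] at h3
    rw [map_one, map_one] at h1
    have h4 : (α - ρ α) * (α - ρ (ρ α)) = 0 := by
      linear_combination h3 - (ρ α + ρ (ρ α)) * h2 + ρ α * ρ (ρ α) * h1
    rcases mul_eq_zero.1 h4 with h5 | h5
    · exact hαρ (sub_eq_zero.1 h5).symm
    · apply hαρ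
      have h6 := congrArg ρ (sub_eq_zero.1 h5)
      rw [hρ3 α hα] at h6
      exact h6
  -- the element of `K`
  have hb'F : FF ψ (b * e ^ 3) := by
    intro σ h
    rw [map_mul, map_pow, hb.ff σ h, heF σ h]
  have hρb : ρ b = b * z ^ 3 := by
    rw [hz]
    field_simp
  have hb'K : b * e ^ 3 ∈ KK s := by
    refine mem_KK hm hρ hb'F ?_
    rw [map_mul, map_pow, hρb]
    calc b * z ^ 3 * ρ e ^ 3 = b * (z * ρ e) ^ 3 := by ring
      _ = b * e ^ 3 := by rw [he]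
  have hRe : RR e := by
    intro q _ ι hq
    have hSq : (ι s) ^ 2 = -((D : ℕ) : PadicAlgCl q) := by
      rw [← map_pow, hS.sq, map_neg, map_natCast]
    refine norm_gen (p := q) hSq ((map_ne_zero ι).2 he0) (fun r hr hrS => ?_)
    obtain ⟨σ, hσ⟩ := exists_cmp ι r hrS
    have hRam : Ram 3 σ := ⟨q, inferInstance, ι, hq, r, hσ, hr⟩
    rw [hσ, heF σ (hR σ hRam)]
  obtain ⟨y, hy, hyf⟩ := hb.loc 1
  rw [AlgEquiv.one_apply] at hy
  have hy0 : y ≠ 0 := by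
    rintro rfl
    rw [zero_pow (by norm_num)] at hy
    exact hb0 hy.symm
  have hye3 : (y * e) ^ 3 = b * e ^ 3 := by rw [mul_pow, hy]
  have hRy : RR (y * e) := (hb.rr y hy).mul hRe
  have hye0 : y * e ≠ 0 := mul_ne_zero hy0 he0
  -- the local condition
  have hye : ∀ σ ∈ (DDs ι₀ : Subgroup (GK s)), ψ σ = 0 → σ (y * e) = y * e := by
    intro σ h1 h2
    rw [map_mul, hyf σ h1 h2, heF σ h2]
  have hτ3 : (τ * (τ * τ)) w = -w := by
    rw [AlgEquiv.mul_apply, AlgEquiv.mul_apply, hτ, map_neg, hτ, neg_neg, hτ]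
  have hτ3D : τ * (τ * τ) ∈ (DDs ι₀ : Subgroup (GK s)) :=
    Subgroup.mul_mem _ hτD (Subgroup.mul_mem _ hτD hτD)
  have hτ3ψ : ψ (τ * (τ * τ)) = 0 := by
    rw [hm, hm]
    generalize ψ τ = a
    revert a
    decide
  have hyD : ∀ δ ∈ (DDs ι₀ : Subgroup (GK s)), δ (y * e) = y * e := by
    intro δ hδ
    have h1 : (δ (y * e) / (y * e)) ^ 3 = 1 := by
      rw [div_pow, ← map_pow, hye3, fixK δ hb'K, div_self]
      exact mul_ne_zero hb0 (pow_ne_zero 3 he0)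
    have h2 : (τ * (τ * τ)) (δ (y * e)) = δ (y * e) := by
      have h3 : δ⁻¹ * (τ * (τ * τ)) * δ ∈ (DDs ι₀ : Subgroup (GK s)) :=
        Subgroup.mul_mem _ (Subgroup.mul_mem _ (Subgroup.inv_mem _ hδ) hτ3D) hδ
      have h4 : ψ (δ⁻¹ * (τ * (τ * τ)) * δ) = 0 := by
        rw [hm, hm, psi_inv hm, hτ3ψ]
        ring
      have h5 := congrArg δ (hye _ h3 h4)
      rw [← AlgEquiv.mul_apply, ← mul_assoc, ← mul_assoc, mul_inv_cancel, one_mul,
        AlgEquiv.mul_apply] at h5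
      exact h5
    have h3 : δ (y * e) / (y * e) = 1 := by
      refine root_one hw h1 hτ3 ?_
      rw [map_div₀, h2, hye _ hτ3D hτ3ψ]
    exact (div_eq_one_iff_eq hye0).1 h3
  obtain ⟨t, ht⟩ := loc_rat hS ι₀ hyD
  obtain ⟨y₀, hy₀, hy₀3⟩ := hG (b * e ^ 3) hb'K (mul_ne_zero hb0 (pow_ne_zero 3 he0))
    (fun x hx => RR.cube (hx.trans hye3.symm) hRy) ⟨t, by rw [ht, ← map_pow, hye3]⟩
  refine ⟨y₀ / e, ?_, ?_⟩
  · have h1 : FF ψ y₀ := fun σ _ => fixK σ hy₀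
    exact h1.div heF
  · rw [div_pow, hy₀3]
    field_simp

/-- a nontrivial character moves an element of its field -/
lemma exists_moved {ψ : GK s → ZMod 3} (hψ : ψ ∈ HP 3 (⊤ : Subgroup (GK s)))
    {ρ : GK s} (hρ : ψ ρ ≠ 0) : ∃ α, FF ψ α ∧ ρ α ≠ α := by
  obtain ⟨hlc, hm, -⟩ := hψ
  have hm' : ∀ σ τ, ψ (σ * τ) = ψ σ + ψ τ := fun σ τ => hm σ trivial τ trivial
  let U : Subgroup (GK s) :=
    { carrier := {σ | ψ σ = 0}
      mul_mem' := by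
        intro a b ha hb
        show ψ (a * b) = 0
        rw [hm', show ψ a = 0 from ha, show ψ b = 0 from hb, add_zero]
      one_mem' := psi_one hm'
      inv_mem' := by
        intro a ha
        show ψ a⁻¹ = 0
        rw [psi_inv hm', show ψ a = 0 from ha, neg_zero] }
  have hUo : IsOpen (U : Set (GK s)) := hlc.isOpen_fiber 0
  have hUc : IsClosed (U : Set (GK s)) := Subgroup.isClosed_of_isOpen _ hUo
  by_contra hcon
  push Not at hcon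
  apply hρ
  have h1 := InfiniteGalois.fixingSubgroup_fixedField (k := KK s) (K := QB) ⟨U, hUc⟩
  have h2 : ρ ∈ (IntermediateField.fixedField U).fixingSubgroup := by
    rw [IntermediateField.mem_fixingSubgroup_iff]
    intro x hx
    rw [IntermediateField.mem_fixedField_iff] at hx
    exact hcon x (fun σ h => hx σ h)
  have h3 : (IntermediateField.fixedField U).fixingSubgroup = U := h1
  rw [h3] at h2
  exact h2

/-- **INJ** -/
theorem s_INJ : S_INJ := by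
  intro s D hS ι₀ hG ψ hψ hR a ha hrr hfix hloc
  obtain ⟨w, hw⟩ : ∃ w : QB, w ^ 2 = -3 := IsAlgClosed.exists_pow_nat_eq (-3) (by norm_num)
  have hm : ∀ σ τ, ψ (σ * τ) = ψ σ + ψ τ := fun σ τ => hψ.2.1 σ trivial τ trivial
  have hHy : Hy ψ ι₀ a := ⟨ha, hrr, hfix, hloc⟩
  by_cases h0 : ∀ σ, ψ σ = 0
  · have haK : a ∈ KK s := by
      obtain ⟨t, ht⟩ := (InfiniteGalois.mem_bot_iff_fixed (k := KK s) (K := QB) a).2
        (fun σ => hfix σ (h0 σ))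
      have ht' : ((t : KK s) : QB) = a := ht
      rw [← ht']
      exact t.2
    obtain ⟨y, hy, hyf⟩ := hloc 1
    rw [AlgEquiv.one_apply] at hy
    obtain ⟨t, ht⟩ := loc_rat hS ι₀ (fun σ hσ => hyf σ hσ (h0 σ))
    obtain ⟨y₀, hy₀, hy₀3⟩ := hG a haK ha hrr ⟨t, by rw [ht, ← map_pow, hy]⟩
    exact ⟨y₀, fun σ _ => fixK σ hy₀, hy₀3⟩
  · push Not at h0
    obtain ⟨ρ₀, hρ₀⟩ := h0
    obtain ⟨ρ, hρ⟩ : ∃ ρ, ψ ρ = 1 := by
      have h3 : ∀ x : ZMod 3, x ≠ 0 → x = 1 ∨ x + x = 1 := by decide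
      rcases h3 _ hρ₀ with h | h
      · exact ⟨ρ₀, h⟩
      · exact ⟨ρ₀ * ρ₀, by rw [hm, h]⟩
    obtain ⟨α, hα, hαρ⟩ := exists_moved hψ (ρ := ρ) (by rw [hρ]; decide)
    have hρ3 : ∀ x, FF ψ x → ρ (ρ (ρ x)) = x := by
      intro x hx
      have h1 : ψ (ρ * (ρ * ρ)) = 0 := by
        rw [hm, hm, hρ]
        decide
      have h2 := hx _ h1
      rwa [AlgEquiv.mul_apply, AlgEquiv.mul_apply] at h2
    have hd : ∀ b, Hy ψ ι₀ b → (∃ z, FF ψ z ∧ z ^ 3 = ρ b / b) → ∃ y, FF ψ y ∧ y ^ 3 = b :=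
      fun b hb hc => descent hS hG hm hR hw hρ hα hαρ hb hc
    have hH1 := hHy.step hm ρ
    have hH2 := hH1.step hm ρ
    obtain ⟨y, hy, hy3⟩ := hd a hHy (hd _ hH1 (hd _ hH2 ⟨ρ a / ρ (ρ a),
      (hHy.ff.map hm ρ).div ((hHy.ff.map hm ρ).map hm ρ), by
        have e1 : ρ a ≠ 0 := (map_ne_zero ρ).2 ha
        have e2 : ρ (ρ a) ≠ 0 := (map_ne_zero ρ).2 e1
        simp only [map_div₀]
        rw [hρ3 a hfix]
        field_simp⟩))
    exact ⟨y, hy, hy3⟩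

end Pool.Agent.L7h69.SGP
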