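import Pool.Agent.L7h69.SGP.Coord

/-!
# Project SGP, part RQ: the condition at the primes `q ≥ 5`
-/

set_option autoImplicit false
set_option linter.unusedSectionVars false

namespace Pool.Agent.L7h69.SGP

open Pool.Agent.Y715.Gi (QB KK GK)
open Pool.Agent.L7h48.SGP Pool.Agent.L7h48.SG
open Pool.Agent.L7h15.SG (em pid em_int em_mem em_surj mem_pid norm_p_lt)
open Pool.Agent.Z384 (KK_ex exists_conj)
open NumberField

variable {s : QB} {D : ℕ}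

/-- `3^j z^3` is a multiple of `b` for `z ∈ I` -/
lemma cube_mem {ι₀ ι₁ : QB →ₐ[ℚ] PadicAlgCl 3} {I : Ideal (𝓞 (KK s))} {b : 𝓞 (KK s)} {j : ℕ}
    (h : Dta D s ι₀ ι₁ I b j) {z : 𝓞 (KK s)} (hz : z ∈ I) :
    b ∣ ((3 ^ j : ℕ) : 𝓞 (KK s)) * z ^ 3 := by
  have h3 : ((3 : ℕ) : 𝓞 (KK s)) ∈ pid s ι₁ := by
    rw [mem_pid, map_natCast, map_natCast]
    exact norm_p_lt
  have h1 : z ^ 3 * ((3 : ℕ) : 𝓞 (KK s)) ^ j ∈ I ^ 3 * pid s ι₁ ^ j :=
    Ideal.mul_mem_mul (Ideal.pow_mem_pow hz 3) (Ideal.pow_mem_pow h3 j)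
  rw [← h.span, Ideal.mem_span_singleton] at h1
  rw [mul_comm]
  push_cast at h1 ⊢
  exact h1

theorem s_RQ : S_RQ := by
  intro D hD hD12 s hs ι₀ ι₁ hι I b j hdta x y hb hy heq q hq hq5 hqy hqm
  have hD0 : D ≠ 0 := by omega
  have hqZ : Prime (q : ℤ) := Nat.prime_iff_prime_int.1 hq
  have hq2 : q ≠ 2 := by omega
  have hq0 : (q : ℤ) ≠ 0 := by exact_mod_cast hq.ne_zero
  have hj3 : Nat.Coprime q (3 ^ j) := by
    apply Nat.Coprime.pow_right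
    rw [Nat.Prime.coprime_iff_not_dvd hq]
    intro h
    have := Nat.le_of_dvd (by norm_num) h
    omega
  have hc2 : Nat.Coprime q 2 := by
    rw [Nat.Prime.coprime_iff_not_dvd hq]
    intro h
    have := Nat.le_of_dvd (by norm_num) h
    omega
  have hc3 : Nat.Coprime q 3 := by
    rw [Nat.Prime.coprime_iff_not_dvd hq]
    intro h
    have := Nat.le_of_dvd (by norm_num) h
    omega
  set m : ℕ := Ideal.absNorm I with hm
  have hqm' : (q : ℤ) ∣ (m : ℤ) := by exact_mod_cast hqm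
  -- a number prime to `q`
  have hq43 : ∀ t : ℤ, (q : ℤ) ∣ 4 * (3 ^ j * t ^ 3) → (q : ℤ) ∣ t := by
    intro t ht
    rcases hqZ.dvd_or_dvd ht with h | h
    · exfalso
      have h1 : q ∣ 4 := by exact_mod_cast h
      have := Nat.le_of_dvd (by norm_num) h1
      omega
    rcases hqZ.dvd_or_dvd h with h | h
    · exfalso
      have h1 : (q : ℤ) ∣ 3 := hqZ.dvd_of_dvd_pow h
      have h2 : q ∣ 3 := by exact_mod_cast h1
      have := Nat.le_of_dvd (by norm_num) h2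
      omega
    · exact hqZ.dvd_of_dvd_pow h
  have hqx : (q : ℤ) ∣ x := by
    have h1 : (q : ℤ) ∣ x ^ 2 := by
      have e : x ^ 2 = 4 * (3 ^ j * (m : ℤ) ^ 3) - D * y ^ 2 := by linarith
      rw [e]
      refine dvd_sub ?_ ?_
      · exact ((hqm'.trans (dvd_pow_self _ (by norm_num))).mul_left _).mul_left _
      · exact (hqy.trans (dvd_pow_self _ (by norm_num))).mul_left _
    exact hqZ.dvd_of_dvd_pow h1
  obtain ⟨x1, hx1⟩ := hqx
  obtain ⟨y1, hy1⟩ := hqy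
  obtain ⟨S, hS⟩ := exists_S hs
  -- twice `b`
  have hb2 : ((2 : ℕ) : 𝓞 (KK s)) * b = (x : 𝓞 (KK s)) + (y : 𝓞 (KK s)) * S := by
    apply em_inj s
    rw [map_mul, map_add, map_mul, map_natCast, map_intCast, map_intCast, hS, hb]
    push_cast
    ring
  have hprim := hdta.prim q hq
  by_cases hqD : q ∣ D
  swap
  · -- `q` is radical
    exfalso
    apply hprim
    rw [Ideal.dvd_iff_le]
    intro z hz
    rw [Ideal.mem_span_singleton]
    have h1 : (q : 𝓞 (KK s)) ∣ b := by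
      apply cop hc2
      rw [hb2, hx1, hy1]
      refine ⟨(x1 : 𝓞 (KK s)) + (y1 : 𝓞 (KK s)) * S, ?_⟩
      push_cast
      ring
    have h2 : (q : 𝓞 (KK s)) ∣ z ^ 3 := cop hj3 (h1.trans (cube_mem hdta hz))
    have h3 : (q : 𝓞 (KK s)) ∣ (z * z) * (z * z) := by
      have e : (z * z) * (z * z) = z ^ 3 * z := by ring
      rw [e]
      exact h2.mul_right z
    exact sq_dvd hs hq hq2 hqD (sq_dvd hs hq hq2 hqD h3)
  obtain ⟨D', hD'⟩ := hqD
  have hqD' : ¬ (q : ℤ) ∣ (D' : ℤ) := by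
    intro h
    have h1 : q ∣ D' := by exact_mod_cast h
    have h2 : q * q ∣ D := by
      rw [hD']
      exact Nat.mul_dvd_mul_left q h1
    exact hq.one_lt.ne' (Nat.isUnit_iff.1 (hD q h2))
  have hDz : (D : ℤ) = q * D' := by exact_mod_cast hD'
  obtain ⟨m1, hm1⟩ := hqm'
  -- first descent
  have e1 : x1 ^ 2 + q * D' * y1 ^ 2 = q * (4 * (3 ^ j * m1 ^ 3)) := by
    rw [hx1, hy1, hDz, hm1] at heq
    have h1 : (q : ℤ) ^ 2 * (x1 ^ 2 + q * D' * y1 ^ 2) =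
        (q : ℤ) ^ 2 * (q * (4 * (3 ^ j * m1 ^ 3))) := by linarith
    exact mul_left_cancel₀ (pow_ne_zero 2 hq0) h1
  have hqx1 : (q : ℤ) ∣ x1 := by
    refine hqZ.dvd_of_dvd_pow (n := 2) ⟨4 * (3 ^ j * m1 ^ 3) - D' * y1 ^ 2, ?_⟩
    linarith
  obtain ⟨x2, hx2⟩ := hqx1
  have e2 : q * x2 ^ 2 + D' * y1 ^ 2 = 4 * (3 ^ j * m1 ^ 3) := by
    rw [hx2] at e1
    have h1 : (q : ℤ) * (q * x2 ^ 2 + D' * y1 ^ 2) = q * (4 * (3 ^ j * m1 ^ 3)) := by linarith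
    exact mul_left_cancel₀ hq0 h1
  by_cases hqm1 : (q : ℤ) ∣ m1
  swap
  · refine ⟨?_, ⟨x2, by rw [hx1, hx2]; ring⟩⟩
    rintro ⟨t, ht⟩
    have h1 : y1 = q * t := by
      have h2 : (q : ℤ) * y1 = q * (q * t) := by rw [← hy1, ht]; ring
      exact mul_left_cancel₀ hq0 h2
    apply hqm1
    apply hq43
    rw [← e2, h1]
    exact ⟨x2 ^ 2 + D' * (q * t ^ 2), by ring⟩
  -- `q ^ 2` divides `m`
  exfalso
  obtain ⟨m2, hm2⟩ := hqm1
  have hqy1 : (q : ℤ) ∣ y1 := by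
    have h1 : (q : ℤ) ∣ D' * y1 ^ 2 := by
      refine ⟨4 * (3 ^ j * (q ^ 2 * m2 ^ 3)) - x2 ^ 2, ?_⟩
      rw [hm2] at e2
      linarith
    rcases hqZ.dvd_or_dvd h1 with h | h
    · exact absurd h hqD'
    · exact hqZ.dvd_of_dvd_pow h
  obtain ⟨y2, hy2⟩ := hqy1
  have e3 : x2 ^ 2 + q * D' * y2 ^ 2 = q ^ 2 * (4 * (3 ^ j * m2 ^ 3)) := by
    rw [hy2, hm2] at e2
    have h1 : (q : ℤ) * (x2 ^ 2 + q * D' * y2 ^ 2) = q * (q ^ 2 * (4 * (3 ^ j * m2 ^ 3))) := by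
      linarith
    exact mul_left_cancel₀ hq0 h1
  have hqx2 : (q : ℤ) ∣ x2 := by
    refine hqZ.dvd_of_dvd_pow (n := 2) ⟨q * (4 * (3 ^ j * m2 ^ 3)) - D' * y2 ^ 2, ?_⟩
    linarith
  obtain ⟨x3, hx3⟩ := hqx2
  have hqy2 : (q : ℤ) ∣ y2 := by
    have h1 : (q : ℤ) ∣ D' * y2 ^ 2 := by
      refine ⟨4 * (3 ^ j * m2 ^ 3) - x3 ^ 2, ?_⟩
      rw [hx3] at e3
      have h2 : (q : ℤ) * (D' * y2 ^ 2) = q * (q * (4 * (3 ^ j * m2 ^ 3) - x3 ^ 2)) := by
        linarith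
      exact mul_left_cancel₀ hq0 h2
    rcases hqZ.dvd_or_dvd h1 with h | h
    · exact absurd h hqD'
    · exact hqZ.dvd_of_dvd_pow h
  obtain ⟨y3, hy3⟩ := hqy2
  have hqb : ((q ^ 3 : ℕ) : 𝓞 (KK s)) ∣ b := by
    have hc : Nat.Coprime (q ^ 3) 2 := Nat.Coprime.pow_left 3 hc2
    apply cop hc
    rw [hb2, hx1, hy1, hx2, hy2, hx3, hy3]
    refine ⟨(x3 : 𝓞 (KK s)) + (y3 : 𝓞 (KK s)) * S, ?_⟩
    push_cast
    ring
  apply hprim
  rw [Ideal.dvd_iff_le]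
  intro z hz
  rw [Ideal.mem_span_singleton]
  obtain ⟨w, hw⟩ := hqb.trans (cube_mem hdta hz)
  have hj := hdta.j1
  have hqQ : (q : QB) ≠ 0 := by exact_mod_cast hq.ne_zero
  -- the element `3 z / q`
  have hTi : IsIntegral ℤ (3 * em s z / q) := by
    refine IsIntegral.of_pow (n := 3) (by norm_num) ?_
    have h1 := congrArg (em s) hw
    rw [map_mul, map_mul, map_natCast, map_natCast, map_pow] at h1
    have h2 : (3 * em s z / q) ^ 3 = ((3 ^ (3 - j) : ℕ) : QB) * em s w := by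
      rw [div_pow, div_eq_iff (pow_ne_zero 3 hqQ)]
      interval_cases j
      · push_cast at h1 ⊢
        linear_combination 27 * h1
      · push_cast at h1 ⊢
        linear_combination 9 * h1
    rw [h2]
    exact (isIntegral_natCast (R := ℤ) _).mul (em_int w)
  have hTm : 3 * em s z / q ∈ KK s :=
    div_mem (mul_mem (ofNat_mem _ 3) (em_mem z)) (natCast_mem _ q)
  obtain ⟨t, ht⟩ := em_surj hTm hTi
  have h3 : ((3 : ℕ) : 𝓞 (KK s)) * z = (q : 𝓞 (KK s)) * t := by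
    apply em_inj s
    rw [map_mul, map_mul, map_natCast, map_natCast, ht]
    push_cast
    field_simp
  exact cop hc3 (Dvd.intro _ h3.symm)

end Pool.Agent.L7h69.SGP
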