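import Pool.Agent.L7h69.SGP.INJ

/-!
# Project SGP, part TRV: a cyclic cubic extension of `K`, unramified outside `3`, in which one of the places
above `3` splits, does not exist if `K` is `Good`
-/

set_option autoImplicit false
set_option linter.unusedSectionVars false

namespace Pool.Agent.L7h69.SGP

open Pool.Agent.Y715.Gi (QB KK GK)
open Pool.Agent.Y715.Nr Pool.Agent.W237.RK
open Pool.Agent.Y715.Df (Cmp exists_cmp gh gh_apply)
open Pool.Agent.Z384 (II DD DDs KK_ex fixK exists_conj norm_gen norm_rat)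
open Pool.Agent.L7h48.SG Pool.Agent.L7h48.SGP
open Pool.Agent.L7h15.SG (norm_int_le norm_nat_eq integral_iota pu_root pu_mul pu_inv)
open IntermediateField

variable {s : QB}

/-! ### `3`-units -/

lemma pu_norm {x : QB} (h : PUnit 3 x) {q : ℕ} [Fact q.Prime] (ι : QB →ₐ[ℚ] PadicAlgCl q)
    (hq : q ≠ 3) : ‖ι x‖ = 1 := by
  obtain ⟨h0, k, h1, h2⟩ := h
  have h3 : ‖((3 : ℕ) : PadicAlgCl q)‖ = 1 := by
    apply norm_nat_eq
    intro hd
    exact hq ((Nat.prime_dvd_prime_iff_eq Fact.out Nat.prime_three).1 hd)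
  have h4 := norm_int_le (integral_iota ι h1)
  have h5 := norm_int_le (integral_iota ι h2)
  rw [map_mul, map_pow, map_natCast, norm_mul, norm_pow, h3, one_pow, one_mul] at h4 h5
  rw [map_inv₀, norm_inv] at h5
  have h6 : 0 < ‖ι x‖ := norm_pos_iff.2 ((map_ne_zero ι).2 h0)
  refine le_antisymm h4 ?_
  exact (inv_le_one₀ h6).1 h5

lemma pu_RR {x : QB} (h : PUnit 3 x) : RR x := by
  intro q _ ι hq
  refine ⟨0, ?_⟩
  rw [pu_norm h ι hq]
  norm_num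

lemma pu_one : PUnit 3 (1 : QB) :=
  ⟨one_ne_zero, 0, by simpa using isIntegral_one, by simpa using isIntegral_one⟩

lemma pu_pow {x : QB} (h : PUnit 3 x) (k : ℕ) : PUnit 3 (x ^ k) := by
  induction k with
  | zero => rw [pow_zero]; exact pu_one
  | succ k ih => rw [pow_succ]; exact pu_mul ih h

lemma pu_prod {n : ℕ} {u : Fin n → QB} (h : ∀ i, PUnit 3 (u i)) (e : Fin n → ℕ) :
    PUnit 3 (∏ i, u i ^ e i) := by
  refine Finset.prod_induction _ (fun x => PUnit 3 x) (fun a b ha hb => pu_mul ha hb) pu_one ?_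
  intro i _
  exact pu_pow (h i) (e i)

lemma FF.pow {ψ : GK s → ZMod 3} {x : QB} (h : FF ψ x) (k : ℕ) : FF ψ (x ^ k) := by
  intro σ hσ
  rw [map_pow, h σ hσ]

lemma FF.prod {ψ : GK s → ZMod 3} {n : ℕ} {u : Fin n → QB} (h : ∀ i, FF ψ (u i))
    (e : Fin n → ℕ) : FF ψ (∏ i, u i ^ e i) := by
  intro σ hσ
  rw [map_prod]
  refine Finset.prod_congr rfl (fun i _ => ?_)
  rw [map_pow, h i σ hσ]

/-! ### cube roots -/

/-- a cube root of the image is the image of a cube root -/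
lemma lift_cube (κ : QB →ₐ[ℚ] PadicAlgCl 3) {q : QB} {Y : PadicAlgCl 3} (h : Y ^ 3 = κ q) :
    ∃ y : QB, y ^ 3 = q ∧ κ y = Y := by
  obtain ⟨w, hw⟩ : ∃ w : QB, w ^ 2 = -3 := IsAlgClosed.exists_pow_nat_eq (-3) (by norm_num)
  have hW : (κ w) ^ 2 = -3 := by rw [← map_pow, hw, map_neg, map_ofNat]
  obtain ⟨x, hx⟩ : ∃ x : QB, x ^ 3 = q := IsAlgClosed.exists_pow_nat_eq q (by norm_num)
  by_cases hq : q = 0
  · rw [hq, map_zero] at h
    refine ⟨0, by rw [hq, zero_pow (by norm_num)], ?_⟩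
    rw [map_zero, eq_comm]
    exact eq_zero_of_pow_eq_zero h
  · have hx0 : x ≠ 0 := by
      rintro rfl
      rw [zero_pow (by norm_num)] at hx
      exact hq hx.symm
    have hκx : κ x ≠ 0 := (map_ne_zero κ).2 hx0
    have h1 : (Y / κ x) ^ 3 = 1 := by
      rw [div_pow, h, ← map_pow, hx, div_self]
      exact (map_ne_zero κ).2 hq
    have h2 : ∃ z : QB, z ^ 3 = 1 ∧ κ z = Y / κ x := by
      rcases root_or hW h1 with h3 | h3 | h3
      · exact ⟨1, one_pow 3, by rw [map_one, h3]⟩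
      · have e : κ ((w - 1) / 2) = Y / κ x := by
          rw [map_div₀, map_sub, map_one, map_ofNat, ← h3]
          ring
        refine ⟨(w - 1) / 2, κ.injective ?_, e⟩
        show κ (((w - 1) / 2) ^ 3) = κ 1
        rw [map_pow, map_one, e, h1]
      · have e : κ ((-w - 1) / 2) = Y / κ x := by
          rw [map_div₀, map_sub, map_neg, map_one, map_ofNat, ← h3]
          ring
        refine ⟨(-w - 1) / 2, κ.injective ?_, e⟩
        show κ (((-w - 1) / 2) ^ 3) = κ 1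
        rw [map_pow, map_one, e, h1]
    obtain ⟨z, hz, hκz⟩ := h2
    refine ⟨z * x, by rw [mul_pow, hz, hx, one_mul], ?_⟩
    rw [map_mul, hκz, div_mul_cancel₀ _ hκx]

/-! ### the pigeonhole principle -/

theorem core (hLC : S_LC) (hINJ : S_INJ) {D : ℕ} (hS : Spl 3 s D)
    {ι₀ : QB →ₐ[ℚ] PadicAlgCl 3} (hG : Good s ι₀)
    {ψ : GK s → ZMod 3} (hψ : ψ ∈ HP 3 (⊤ : Subgroup (GK s))) (hR : ∀ σ, Ram 3 σ → ψ σ = 0)
    (L : IntermediateField ℚ_[3] (PadicAlgCl 3)) (hfin : FiniteDimensional ℚ_[3] L)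
    (hL : ∀ x, ι₀ x ∈ L → ∀ σ ∈ (DDs ι₀ : Subgroup (GK s)), ψ σ = 0 → σ x = x)
    (a f n : ℕ) (hf : Module.finrank ℚ_[3] L ≤ f) (h : Fin a → GK s)
    (hM : ∀ j x, FF ψ x → ι₀ (h j x) ∈ L)
    (hcov : ∀ g : GK s, ∃ j : Fin a, ∃ δ ∈ (DDs ι₀ : Subgroup (GK s)),
      ∀ x, FF ψ x → g x = δ (h j x))
    (u : Fin n → QB) (hu1 : ∀ i, FF ψ (u i)) (hu2 : ∀ i, PUnit 3 (u i))
    (hu3 : ∀ e : Fin n → ℕ, (∃ y, FF ψ y ∧ y ^ 3 = ∏ i, u i ^ e i) → ∀ i, 3 ∣ e i)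
    (hn : (f + 1) * a < n) : False := by
  classical
  have hm : ∀ σ τ, ψ (σ * τ) = ψ σ + ψ τ := fun σ τ => hψ.2.1 σ trivial τ trivial
  obtain ⟨w, hw⟩ : ∃ w : QB, w ^ 2 = -3 := IsAlgClosed.exists_pow_nat_eq (-3) (by norm_num)
  obtain ⟨τ, hτD, hτ⟩ := exists_dec hS hw ι₀
  have hτ3 : (τ * (τ * τ)) w = -w := by
    rw [AlgEquiv.mul_apply, AlgEquiv.mul_apply, hτ, map_neg, hτ, neg_neg, hτ]
  have hτ3D : τ * (τ * τ) ∈ (DDs ι₀ : Subgroup (GK s)) :=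
    Subgroup.mul_mem _ hτD (Subgroup.mul_mem _ hτD hτD)
  have hτ3ψ : ψ (τ * (τ * τ)) = 0 := by
    rw [hm, hm]
    generalize ψ τ = a
    revert a
    decide
  have hmu : ∀ ζ ∈ L, ζ ^ 3 = 1 → ζ = 1 := by
    intro ζ hζL hζ
    obtain ⟨y, hy, hκ⟩ := lift_cube ι₀ (q := 1) (Y := ζ) (by rw [hζ, map_one])
    have h1 := hL y (by rw [hκ]; exact hζL) _ hτ3D hτ3ψ
    have h2 : y = 1 := root_one hw hy hτ3 h1
    rw [← hκ, h2, map_one]
  obtain ⟨R, hRc, hRx⟩ := hLC 3 (by norm_num) L hfin hmu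
  -- the products
  set X : (Fin n → Fin 3) → QB := fun e => ∏ i, u i ^ (e i : ℕ) with hX
  have hXF : ∀ e, FF ψ (X e) := fun e => FF.prod hu1 _
  have hXP : ∀ e, PUnit 3 (X e) := fun e => pu_prod hu2 _
  have hX0 : ∀ e, X e ≠ 0 := fun e => (hXP e).1
  have hcl : ∀ e j, ∃ r : R, ∃ y ∈ L, (r : PadicAlgCl 3) ≠ 0 ∧
      ι₀ (h j (X e)) = (r : PadicAlgCl 3) * y ^ 3 := by
    intro e j
    obtain ⟨r, hr, y, hy, -, hr0, e1⟩ := hRx _ (hM j _ (hXF e))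
      ((map_ne_zero ι₀).2 ((map_ne_zero (h j)).2 (hX0 e)))
    exact ⟨⟨r, hr⟩, y, hy, hr0, e1⟩
  choose r y hyL hr0 hry using hcl
  have hcard : Fintype.card (Fin a → R) < Fintype.card (Fin n → Fin 3) := by
    rw [Fintype.card_fun, Fintype.card_fun, Fintype.card_fin, Fintype.card_fin, Fintype.card_fin,
      Fintype.card_coe]
    calc R.card ^ a ≤ (3 ^ (f + 1)) ^ a :=
          Nat.pow_le_pow_left (hRc.trans (Nat.pow_le_pow_right (by norm_num) (by omega))) a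
      _ = 3 ^ ((f + 1) * a) := by rw [pow_mul]
      _ < 3 ^ n := Nat.pow_lt_pow_right (by norm_num) hn
  obtain ⟨e, e', hne, hee⟩ := Fintype.exists_ne_map_eq_of_card_lt (fun e j => r e j) hcard
  apply hne
  set q : QB := X e / X e' with hq
  have hqP : PUnit 3 q := by
    rw [hq, div_eq_mul_inv]
    exact pu_mul (hXP e) (pu_inv (hXP e'))
  have hqF : FF ψ q := (hXF e).div (hXF e')
  obtain ⟨z, hzF, hz⟩ := hINJ s D hS ι₀ hG ψ hψ hR q hqP.1
    (fun x hx => pu_RR (pu_root (n := 3) (by norm_num) (by rw [hx]; exact hqP)))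
    hqF (by
      intro g
      obtain ⟨j, δ, hδ, hg⟩ := hcov g
      have h1 : (y e j / y e' j) ^ 3 = ι₀ (h j q) := by
        have h2 : r e j = r e' j := congrFun hee j
        have h3 := hr0 e j
        have h4 := hry e j
        have h5 := hry e' j
        rw [← h2] at h5
        have h6 : y e' j ≠ 0 := by
          intro h0
          rw [h0, zero_pow (by norm_num), mul_zero] at h5
          exact ((map_ne_zero ι₀).2 ((map_ne_zero (h j)).2 (hX0 e'))) h5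
        rw [hq, map_div₀, map_div₀, h4, h5]
        field_simp
      obtain ⟨y₀, hy₀, hκ⟩ := lift_cube ι₀ h1
      refine ⟨δ y₀, by rw [← map_pow, hy₀, hg q hqF], fun σ hσ hσψ => ?_⟩
      have h3 : δ⁻¹ * σ * δ ∈ (DDs ι₀ : Subgroup (GK s)) :=
        Subgroup.mul_mem _ (Subgroup.mul_mem _ (Subgroup.inv_mem _ hδ) hσ) hδ
      have h4 : ψ (δ⁻¹ * σ * δ) = 0 := by
        rw [hm, hm, psi_inv hm, hσψ]
        ring
      have h5 := congrArg δ (hL y₀ (by rw [hκ]; exact div_mem (hyL e j) (hyL e' j)) _ h3 h4)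
      rw [← AlgEquiv.mul_apply, ← mul_assoc, ← mul_assoc, mul_inv_cancel, one_mul,
        AlgEquiv.mul_apply] at h5
      exact h5)
  have hfin := hu3 (fun i => (e i : ℕ) + 2 * (e' i : ℕ)) ⟨z * X e', FF.mul hzF (hXF e'), by
    rw [mul_pow, hz, hq]
    have h1 : X e / X e' * X e' ^ 3 = X e * X e' ^ 2 := by
      have := hX0 e'
      field_simp
    rw [h1, hX]
    simp only
    rw [← Finset.prod_pow, ← Finset.prod_mul_distrib]
    refine Finset.prod_congr rfl (fun i _ => ?_)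
    rw [pow_add, mul_comm 2, pow_mul]⟩
  funext i
  have h1 := hfin i
  have h2 := (e i).2
  have h3 := (e' i).2
  apply Fin.ext
  omega

/-! ### different places -/

lemma near_eq {t t' : ℚ_[3]} (h : ∀ r : ℚ, ‖t - r‖ = ‖t' - r‖) : t = t' := by
  by_contra hne
  have h0 : 0 < ‖t - t'‖ := norm_pos_iff.2 (sub_ne_zero.2 hne)
  obtain ⟨r, hr⟩ := Padic.rat_dense 3 t (half_pos h0)
  have h1 : ‖t - t'‖ ≤ ‖t - r‖ + ‖t' - r‖ := by
    have e : t - t' = (t - r) - (t' - r) := by ring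
    rw [e]
    exact norm_sub_le _ _
  rw [← h r] at h1
  linarith

lemma norm_alg (t : ℚ_[3]) : ‖algebraMap ℚ_[3] (PadicAlgCl 3) t‖ = ‖t‖ :=
  PadicAlgCl.norm_extends 3 t

lemma FF.rat {ψ : GK s → ZMod 3} (r : ℚ) : FF ψ (r : QB) := by
  intro σ _
  exact map_ratCast σ r

lemma FF.sub {ψ : GK s → ZMod 3} {x y : QB} (hx : FF ψ x) (hy : FF ψ y) : FF ψ (x - y) := by
  intro σ h
  rw [map_sub, hx σ h, hy σ h]

/-- two embeddings of `M` in `ℚ_3` with the same absolute value are equal on `M` -/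
lemma sep {ψ : GK s → ZMod 3} (κ κ' : QB →ₐ[ℚ] PadicAlgCl 3)
    (h1 : ∀ x, FF ψ x → ∃ t : ℚ_[3], algebraMap ℚ_[3] (PadicAlgCl 3) t = κ x)
    (h2 : ∀ x, FF ψ x → ∃ t : ℚ_[3], algebraMap ℚ_[3] (PadicAlgCl 3) t = κ' x)
    (h : ∀ x, FF ψ x → ‖κ x‖ = ‖κ' x‖) : ∀ x, FF ψ x → κ x = κ' x := by
  intro x hx
  obtain ⟨t, ht⟩ := h1 x hx
  obtain ⟨t', ht'⟩ := h2 x hx
  have h3 : t = t' := by
    apply near_eq
    intro r
    have h4 := h (x - r) (hx.sub (FF.rat r))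
    rw [map_sub, map_sub, map_ratCast, map_ratCast, ← ht, ← ht'] at h4
    have e : ∀ y : ℚ_[3], algebraMap ℚ_[3] (PadicAlgCl 3) y - (r : PadicAlgCl 3) =
        algebraMap ℚ_[3] (PadicAlgCl 3) (y - r) := by
      intro y
      rw [map_sub, map_ratCast]
    rw [e, e, norm_alg, norm_alg] at h4
    exact h4
  rw [← ht, ← ht', h3]

section gen

variable {ψ : GK s → ZMod 3} (hm : ∀ σ τ, ψ (σ * τ) = ψ σ + ψ τ) {ρ : GK s} (hρ : ψ ρ = 1)
  {α : QB} (hα : FF ψ α) (hαρ : ρ α ≠ α)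

include hm hρ hα hαρ in
lemma psi_of_fix {σ : GK s} (h : σ α = α) : ψ σ = 0 := by
  have h3 : ∀ a : ZMod 3, a = 0 ∨ a = 1 ∨ a = -1 := by decide
  rcases h3 (ψ σ) with h4 | h4 | h4
  · exact h4
  · exfalso
    have h5 : ψ (σ⁻¹ * ρ) = 0 := by
      rw [hm, psi_inv hm, h4, hρ]
      ring
    have h6 := congrArg σ (hα _ h5)
    rw [← AlgEquiv.mul_apply, ← mul_assoc, mul_inv_cancel, one_mul, h] at h6
    exact hαρ h6
  · exfalso
    have h5 : ψ (ρ * σ) = 0 := by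
      rw [hm, h4, hρ]
      ring
    have h6 := hα _ h5
    rw [AlgEquiv.mul_apply, h] at h6
    exact hαρ h6

include hm hρ hα hαρ in
lemma psi_of_eq {σ σ' : GK s} (h : σ α = σ' α) : ψ σ = ψ σ' := by
  have h1 : (σ'⁻¹ * σ) α = α := by
    rw [AlgEquiv.mul_apply, h, ← AlgEquiv.mul_apply, inv_mul_cancel, AlgEquiv.one_apply]
  have h2 := psi_of_fix hm hρ hα hαρ h1
  rw [hm, psi_inv hm] at h2
  exact (neg_add_eq_zero.1 h2).symm

include hm hρ in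
lemma psi_pow (k : ℕ) : ψ (ρ ^ k) = k := by
  induction k with
  | zero => rw [pow_zero, psi_one hm, Nat.cast_zero]
  | succ k ih => rw [pow_succ, hm, ih, hρ, Nat.cast_succ]

end gen

lemma cast_three {k l : ℕ} (hk : k < 3) (hl : l < 3) (h : (k : ZMod 3) = (l : ZMod 3)) :
    k = l := by
  rw [ZMod.natCast_eq_natCast_iff] at h
  unfold Nat.ModEq at h
  omega

/-! ### the local field -/

section loc

variable {ψ : GK s → ZMod 3} (hm : ∀ σ τ, ψ (σ * τ) = ψ σ + ψ τ) {ρ : GK s} (hρ : ψ ρ = 1)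
  {α : QB} (hα : FF ψ α) (hαρ : ρ α ≠ α) {D : ℕ} (hS : Spl 3 s D)

include hS in
lemma iota_s (ι₀ : QB →ₐ[ℚ] PadicAlgCl 3) (τ : Au 3) : τ (ι₀ s) = ι₀ s := by
  obtain ⟨t, ht⟩ := loc_rat hS ι₀ (y := s) (fun σ _ =>
    fixK σ (IntermediateField.mem_adjoin_simple_self ℚ s))
  rw [← ht, AlgEquiv.commutes]

include hm hρ hα hαρ hS in
/-- the field `ℚ_3(ι₀ α)` contains `ι₀ M` -/
lemma mem_L (ι₀ : QB →ₐ[ℚ] PadicAlgCl 3) {x : QB} (hx : FF ψ x) : ι₀ x ∈ ℚ_[3]⟮ι₀ α⟯ := by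
  have h1 := InfiniteGalois.fixedField_fixingSubgroup (k := ℚ_[3]) (K := PadicAlgCl 3) ℚ_[3]⟮ι₀ α⟯
  rw [← h1, IntermediateField.mem_fixedField_iff]
  intro τ hτ
  rw [IntermediateField.mem_fixingSubgroup_iff] at hτ
  have h2 := hτ (ι₀ α) (IntermediateField.mem_adjoin_simple_self _ _)
  obtain ⟨σ, hσ⟩ := exists_cmp ι₀ τ (iota_s hS ι₀ τ)
  have h3 : σ α = α := by
    apply ι₀.injective
    show ι₀ (σ α) = ι₀ α
    rw [← hσ, h2]
  rw [hσ, hx σ (psi_of_fix hm hρ hα hαρ h3)]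

include hα in
lemma fix_L (ι₀ : QB →ₐ[ℚ] PadicAlgCl 3) {x : QB} (hx : ι₀ x ∈ ℚ_[3]⟮ι₀ α⟯) (σ : GK s)
    (hσ : σ ∈ (DDs ι₀ : Subgroup (GK s))) (h : ψ σ = 0) : σ x = x := by
  obtain ⟨τ, hτ⟩ := hσ
  have h1 : ℚ_[3]⟮ι₀ α⟯ ≤ IntermediateField.fixedField (Subgroup.zpowers τ) := by
    rw [IntermediateField.adjoin_simple_le_iff, IntermediateField.mem_fixedField_iff]
    intro g hg
    obtain ⟨k, rfl⟩ := Subgroup.mem_zpowers_iff.1 hg
    have h2 : τ (ι₀ α) = ι₀ α := by rw [hτ, hα σ h]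
    have h3 : (τ ^ k) • (ι₀ α) = ι₀ α :=
      smul_eq_iff_eq_inv_smul (τ ^ k) |>.2 (by
        have : τ ∈ MulAction.stabilizer (Au 3) (ι₀ α) := h2
        have h4 := Subgroup.inv_mem _ (Subgroup.zpow_mem _ this k)
        exact (MulAction.mem_stabilizer_iff.1 h4).symm)
    exact h3
  have h2 := h1 hx
  rw [IntermediateField.mem_fixedField_iff] at h2
  have h3 := h2 τ (Subgroup.mem_zpowers τ)
  apply ι₀.injective
  show ι₀ (σ x) = ι₀ x
  rw [← hτ, h3]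

include hm hρ hα hS in
lemma finrank_L (ι₀ : QB →ₐ[ℚ] PadicAlgCl 3) : Module.finrank ℚ_[3] ℚ_[3]⟮ι₀ α⟯ ≤ 3 := by
  have hρ3 : ρ (ρ (ρ α)) = α := by
    have h1 : ψ (ρ * (ρ * ρ)) = 0 := by
      rw [hm, hm, hρ]
      decide
    have h2 := hα _ h1
    rwa [AlgEquiv.mul_apply, AlgEquiv.mul_apply] at h2
  have hα1 := hα.map hm ρ
  have hα2 := hα1.map hm ρ
  have hK : ∀ {x : QB}, x ∈ KK s → ∃ t : ℚ_[3], algebraMap ℚ_[3] (PadicAlgCl 3) t = ι₀ x :=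
    fun hx => loc_rat hS ι₀ (fun σ _ => fixK σ hx)
  obtain ⟨t1, ht1⟩ := hK (mem_KK hm hρ (x := α + ρ α + ρ (ρ α)) ((hα.add hα1).add hα2) (by
    rw [map_add, map_add, hρ3]
    ring))
  obtain ⟨t2, ht2⟩ := hK (mem_KK hm hρ (x := α * ρ α + ρ α * ρ (ρ α) + ρ (ρ α) * α)
    (((hα.mul hα1).add (hα1.mul hα2)).add (hα2.mul hα)) (by
    rw [map_add, map_add, map_mul, map_mul, map_mul, hρ3]
    ring))
  obtain ⟨t3, ht3⟩ := hK (mem_KK hm hρ (x := α * ρ α * ρ (ρ α)) ((hα.mul hα1).mul hα2) (by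
    rw [map_mul, map_mul, hρ3]
    ring))
  have hint : IsIntegral ℚ_[3] (ι₀ α) := Algebra.IsIntegral.isIntegral _
  rw [IntermediateField.adjoin.finrank hint]
  open Polynomial in
  have hmon : (X ^ 3 + (C (-t1) * X ^ 2 + C t2 * X + C (-t3)) : ℚ_[3][X]).Monic := by
    apply monic_X_pow_add
    compute_degree!
  open Polynomial in
  have hdeg : (X ^ 3 + (C (-t1) * X ^ 2 + C t2 * X + C (-t3)) : ℚ_[3][X]).natDegree = 3 := by
    compute_degree!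
  open Polynomial in
  have hroot : aeval (ι₀ α) (X ^ 3 + (C (-t1) * X ^ 2 + C t2 * X + C (-t3)) : ℚ_[3][X]) = 0 := by
    rw [map_add, map_add, map_add, map_mul, map_mul, map_pow, map_pow, aeval_X, aeval_C, aeval_C,
      aeval_C, map_neg, map_neg, ht1, ht2, ht3]
    rw [← map_pow, ← map_pow, ← map_neg, ← map_mul, ← map_mul, ← map_neg, ← map_add, ← map_add,
      ← map_add]
    rw [map_eq_zero]
    ring
  have h1 := minpoly.min ℚ_[3] (ι₀ α) hmon hroot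
  have h2 := Polynomial.natDegree_le_natDegree h1
  rw [hdeg] at h2
  exact h2

end loc

/-- the kernel of `ψ` -/
noncomputable def Kr {ψ : GK s → ZMod 3} (hm : ∀ σ τ, ψ (σ * τ) = ψ σ + ψ τ) : Subgroup (GK s) :=
  (MonoidHom.mk' (fun σ => Multiplicative.ofAdd (ψ σ)) (fun σ τ => by
    rw [hm]; rfl) : GK s →* Multiplicative (ZMod 3)).ker

lemma mem_Kr {ψ : GK s → ZMod 3} (hm : ∀ σ τ, ψ (σ * τ) = ψ σ + ψ τ) (σ : GK s) :
    σ ∈ Kr hm ↔ ψ σ = 0 := Iff.rfl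

lemma index_Kr {ψ : GK s → ZMod 3} (hm : ∀ σ τ, ψ (σ * τ) = ψ σ + ψ τ) {ρ : GK s} (hρ : ψ ρ = 1) :
    (Kr hm).index = 3 := by
  unfold Kr
  rw [Subgroup.index_ker, MonoidHom.range_eq_top.2]
  · rw [Subgroup.card_top]
    have h1 : Nat.card (Multiplicative (ZMod 3)) = Nat.card (ZMod 3) := rfl
    rw [h1, Nat.card_zmod]
  · intro x
    refine ⟨ρ ^ (Multiplicative.toAdd x : ZMod 3).val, ?_⟩
    show Multiplicative.ofAdd (ψ (ρ ^ (Multiplicative.toAdd x : ZMod 3).val)) = x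
    rw [psi_pow hm hρ, ZMod.natCast_zmod_val]
    rfl

/-- **TRV** -/
theorem s_TRV (hU2 : S_U2) (hLC : S_LC) (hINJ : S_INJ) : S_TRV := by
  intro s D hS hG ι₁ ψ hψ hR hD1
  by_contra hne
  have hm : ∀ σ τ, ψ (σ * τ) = ψ σ + ψ τ := fun σ τ => hψ.2.1 σ trivial τ trivial
  obtain ⟨ρ, hρ⟩ : ∃ ρ, ψ ρ = 1 := by
    have h0 : ∃ ρ₀, ψ ρ₀ ≠ 0 := by
      by_contra hcon
      push Not at hcon
      exact hne (funext hcon)
    obtain ⟨ρ₀, hρ₀⟩ := h0
    have h3 : ∀ x : ZMod 3, x ≠ 0 → x = 1 ∨ x + x = 1 := by decide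
    rcases h3 _ hρ₀ with h | h
    · exact ⟨ρ₀, h⟩
    · exact ⟨ρ₀ * ρ₀, by rw [hm, h]⟩
  obtain ⟨α, hα, hαρ⟩ := exists_moved hψ (ρ := ρ) (by rw [hρ]; decide)
  have hUo : IsOpen (Kr hm : Set (GK s)) := hψ.1.isOpen_fiber 0
  have hUi := index_Kr hm hρ
  have hs0 : s ≠ 0 := by
    rintro rfl
    have h1 := hS.sq
    rw [zero_pow two_ne_zero, eq_comm, neg_eq_zero] at h1
    exact hS.pos.ne' (by exact_mod_cast h1)
  obtain ⟨c, hc⟩ := exists_conj hS.sq hS.pos.ne'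
  set ι₀ : QB →ₐ[ℚ] PadicAlgCl 3 := ι₁.comp (c : QB →ₐ[ℚ] QB) with hι₀
  have hι₀s : ι₀ s = -ι₁ s := by
    show ι₁ (c s) = _
    rw [hc, map_neg]
  have hloc1 : ∀ x, FF ψ x → ∃ t : ℚ_[3], algebraMap ℚ_[3] (PadicAlgCl 3) t = ι₁ x :=
    fun x hx => loc_rat hS ι₁ (fun σ hσ => hx σ (hD1 σ hσ))
  have hsF : FF ψ s := fun σ _ => fixK σ (IntermediateField.mem_adjoin_simple_self ℚ s)
  have hgs : ∀ g : GK s, g s = s := fun g => fixK g (IntermediateField.mem_adjoin_simple_self ℚ s)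
  have key1 : ∀ (κ : QB →ₐ[ℚ] PadicAlgCl 3) (k l : ℕ), k < 3 → l < 3 →
      (κ.comp (gh (ρ ^ k))) α = (κ.comp (gh (ρ ^ l))) α → k = l := by
    intro κ k l hk hl h
    have h1 : (ρ ^ k) α = (ρ ^ l) α := κ.injective h
    have h2 := psi_of_eq hm hρ hα hαρ h1
    rw [psi_pow hm hρ, psi_pow hm hρ] at h2
    exact cast_three hk hl h2
  by_cases hD0 : ∀ σ ∈ (DDs ι₀ : Subgroup (GK s)), ψ σ = 0
  · -- six places
    have hloc0 : ∀ x, FF ψ x → ∃ t : ℚ_[3], algebraMap ℚ_[3] (PadicAlgCl 3) t = ι₀ x :=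
      fun x hx => loc_rat hS ι₀ (fun σ hσ => hx σ (hD0 σ hσ))
    set pl : Fin 6 → (QB →ₐ[ℚ] PadicAlgCl 3) := fun i =>
      if (i : ℕ) < 3 then ι₁.comp (gh (ρ ^ (i : ℕ))) else ι₀.comp (gh (ρ ^ ((i : ℕ) - 3))) with hpl
    have hlocp : ∀ i x, FF ψ x → ∃ t : ℚ_[3], algebraMap ℚ_[3] (PadicAlgCl 3) t = pl i x := by
      intro i x hx
      rw [hpl]
      by_cases hi : (i : ℕ) < 3
      · simp only [hi, if_true]
        exact hloc1 _ (hx.map hm (ρ ^ (i : ℕ)))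
      · simp only [hi, if_false]
        exact hloc0 _ (hx.map hm (ρ ^ ((i : ℕ) - 3)))
    obtain ⟨u, hu1, hu2, hu3⟩ := hU2 3 s D hS.pos hS.sq (Kr hm) hUo 6 pl (by
      intro i j hij
      by_contra hcon
      push Not at hcon
      have h1 := sep (pl i) (pl j) (hlocp i) (hlocp j) (fun x hx => hcon x hx)
      have h2 := h1 α hα
      have h3 := h1 s hsF
      apply hij
      rw [hpl] at h2 h3
      have hi6 := i.2
      have hj6 := j.2
      by_cases hi : (i : ℕ) < 3 <;> by_cases hj : (j : ℕ) < 3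
      · simp only [hi, hj, if_true] at h2
        exact Fin.ext (key1 ι₁ i j hi hj h2)
      · exfalso
        simp only [hi, hj, if_true, if_false] at h3
        have h4 : ι₁ ((ρ ^ (i : ℕ)) s) = ι₀ ((ρ ^ ((j : ℕ) - 3)) s) := h3
        rw [hgs, hgs, hι₀s] at h4
        exact (map_ne_zero ι₁).2 hs0 (self_eq_neg.1 h4)
      · exfalso
        simp only [hi, hj, if_true, if_false] at h3
        have h4 : ι₀ ((ρ ^ ((i : ℕ) - 3)) s) = ι₁ ((ρ ^ (j : ℕ)) s) := h3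
        rw [hgs, hgs, hι₀s] at h4
        exact (map_ne_zero ι₁).2 hs0 (self_eq_neg.1 h4.symm)
      · simp only [hi, hj, if_false] at h2
        have h5 := key1 ι₀ ((i : ℕ) - 3) ((j : ℕ) - 3) (by omega) (by omega) h2
        apply Fin.ext
        omega)
    refine core hLC hINJ hS (hG ι₀) hψ hR (⊥ : IntermediateField ℚ_[3] (PadicAlgCl 3))
      inferInstance ?_ 3 1 _ ?_ (fun j => ρ ^ (j : ℕ)) ?_ ?_ u hu1 hu2 ?_ ?_
    · rintro x hx σ ⟨τ, hτ⟩ -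
      obtain ⟨t, ht⟩ := IntermediateField.mem_bot.1 hx
      apply ι₀.injective
      show ι₀ (σ x) = ι₀ x
      rw [← hτ, ← ht, AlgEquiv.commutes]
    · rw [IntermediateField.finrank_bot]
    · intro j x hx
      obtain ⟨t, ht⟩ := hloc0 _ (hx.map hm (ρ ^ (j : ℕ)))
      exact IntermediateField.mem_bot.2 ⟨t, ht⟩
    · intro g
      refine ⟨⟨(ψ g).val, ZMod.val_lt _⟩, 1, Subgroup.one_mem _, fun x hx => ?_⟩
      rw [AlgEquiv.one_apply]
      have h1 : ψ ((ρ ^ (ψ g).val)⁻¹ * g) = 0 := by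
        rw [hm, psi_inv hm, psi_pow hm hρ, ZMod.natCast_zmod_val]
        ring
      have h2 := congrArg (ρ ^ (ψ g).val : GK s) (hx _ h1)
      rw [← AlgEquiv.mul_apply, ← mul_assoc, mul_inv_cancel, one_mul] at h2
      exact h2
    · exact hu3
    · rw [hUi]
      norm_num
  · -- three places
    push Not at hD0
    obtain ⟨δ₀, hδ₀, hδ₀ψ⟩ := hD0
    obtain ⟨δ, hδ, hδψ⟩ : ∃ δ ∈ (DDs ι₀ : Subgroup (GK s)), ψ δ = 1 := by
      have h3 : ∀ x : ZMod 3, x ≠ 0 → x = 1 ∨ x + x = 1 := by decide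
      rcases h3 _ hδ₀ψ with h | h
      · exact ⟨δ₀, hδ₀, h⟩
      · exact ⟨δ₀ * δ₀, Subgroup.mul_mem _ hδ₀ hδ₀, by rw [hm, h]⟩
    set pl : Fin 3 → (QB →ₐ[ℚ] PadicAlgCl 3) := fun i => ι₁.comp (gh (ρ ^ (i : ℕ))) with hpl
    have hlocp : ∀ i x, FF ψ x → ∃ t : ℚ_[3], algebraMap ℚ_[3] (PadicAlgCl 3) t = pl i x :=
      fun i x hx => hloc1 _ (hx.map hm (ρ ^ (i : ℕ)))
    obtain ⟨u, hu1, hu2, hu3⟩ := hU2 3 s D hS.pos hS.sq (Kr hm) hUo 3 pl (by
      intro i j hij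
      by_contra hcon
      push Not at hcon
      have h1 := sep (pl i) (pl j) (hlocp i) (hlocp j) (fun x hx => hcon x hx)
      exact hij (Fin.ext (key1 ι₁ i j i.2 j.2 (h1 α hα))))
    have hint : IsIntegral ℚ_[3] (ι₀ α) := Algebra.IsIntegral.isIntegral _
    refine core hLC hINJ hS (hG ι₀) hψ hR ℚ_[3]⟮ι₀ α⟯
      (IntermediateField.adjoin.finiteDimensional hint)
      (fun x hx σ hσ h => fix_L hα ι₀ hx σ hσ h) 1 3 _ (finrank_L hm hρ hα hS ι₀)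
      (fun _ => 1) ?_ ?_ u hu1 hu2 ?_ ?_
    · intro j x hx
      exact mem_L hm hρ hα hαρ hS ι₀ hx
    · intro g
      refine ⟨0, δ ^ (ψ g).val, Subgroup.pow_mem _ hδ _, fun x hx => ?_⟩
      rw [AlgEquiv.one_apply]
      have h1 : ψ ((δ ^ (ψ g).val)⁻¹ * g) = 0 := by
        rw [hm, psi_inv hm, psi_pow hm hδψ, ZMod.natCast_zmod_val]
        ring
      have h2 := congrArg (δ ^ (ψ g).val : GK s) (hx _ h1)
      rw [← AlgEquiv.mul_apply, ← mul_assoc, mul_inv_cancel, one_mul] at h2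
      exact h2
    · exact hu3
    · rw [hUi]
      norm_num

end Pool.Agent.L7h69.SGP
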