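import Pool.Agent.L7h48.SGP.Stm

/-!
# Project SGP: coordinates of the integers of `ℚ(√-D)`, divisibility by a prime `q ≠ 2`
-/

set_option autoImplicit false
set_option linter.unusedSectionVars false

namespace Pool.Agent.L7h69.SGP

open Pool.Agent.Y715.Gi (QB KK GK)
open Pool.Agent.L7h48.SGP Pool.Agent.L7h48.SG
open Pool.Agent.L7h15.SG (em pid em_int em_mem em_surj)
open Pool.Agent.Z384 (KK_ex exists_conj)
open NumberField

lemma rat_int {r : ℚ} (h : IsIntegral ℤ ((r : ℚ) : QB)) : ∃ a : ℤ, (a : ℚ) = r := by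
  have e : ((r : ℚ) : QB) = algebraMap ℚ QB r := by rw [eq_ratCast]
  rw [e, isIntegral_algebraMap_iff (algebraMap ℚ QB).injective] at h
  obtain ⟨a, ha⟩ := IsIntegrallyClosed.isIntegral_iff.1 h
  exact ⟨a, by rw [← ha, eq_intCast]⟩

variable {s : QB} {D : ℕ}

lemma em_inj (s : QB) : Function.Injective (em s) := by
  intro x y h
  have h1 : (algebraMap (KK s) QB) (algebraMap (𝓞 (KK s)) (KK s) x) =
    (algebraMap (KK s) QB) (algebraMap (𝓞 (KK s)) (KK s) y) := h
  exact RingOfIntegers.coe_injective ((algebraMap (KK s) QB).injective h1)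

/-- uniqueness of the coordinates -/
lemma coord_uniq (hs : s ^ 2 = -(D : QB)) (hD : D ≠ 0) {u v u' v' : ℚ}
    (h : (u : QB) + v * s = u' + v' * s) : u = u' ∧ v = v' := by
  obtain ⟨c, hc⟩ := exists_conj hs hD
  have hs0 : s ≠ 0 := by
    rintro rfl
    rw [zero_pow two_ne_zero, eq_comm, neg_eq_zero] at hs
    exact hD (by exact_mod_cast hs)
  have h1 := congrArg c h
  rw [map_add, map_add, map_mul, map_mul, hc, map_ratCast, map_ratCast, map_ratCast,
    map_ratCast] at h1
  have h2 : (u : QB) = u' := by linear_combination (1 / 2 : QB) * h + (1 / 2 : QB) * h1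
  have h3 : (v : QB) * s = v' * s := by
    linear_combination (1 / 2 : QB) * h - (1 / 2 : QB) * h1
  exact ⟨by exact_mod_cast h2, by exact_mod_cast mul_right_cancel₀ hs0 h3⟩

lemma s_int (hs : s ^ 2 = -(D : QB)) : IsIntegral ℤ s := by
  refine IsIntegral.of_pow (n := 2) (by norm_num) ?_
  rw [hs]
  exact (isIntegral_natCast (R := ℤ) D).neg

lemma exists_S (hs : s ^ 2 = -(D : QB)) : ∃ S : 𝓞 (KK s), em s S = s :=
  em_surj (IntermediateField.mem_adjoin_simple_self ℚ s) (s_int hs)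

/-- the coordinates of an integral element -/
lemma coord (hs : s ^ 2 = -(D : QB)) (hD : D ≠ 0) (z : 𝓞 (KK s)) :
    ∃ (u v : ℚ) (a e n : ℤ), em s z = u + v * s ∧ (a : ℚ) = 2 * u ∧ (e : ℚ) = 2 * v * D ∧
      (n : ℚ) = u ^ 2 + D * v ^ 2 := by
  obtain ⟨c, hc⟩ := exists_conj hs hD
  obtain ⟨u, v, huv⟩ := KK_ex hs (em_mem z)
  have hcz : c (em s z) = u - v * s := by
    rw [huv, map_add, map_mul, hc, map_ratCast, map_ratCast]
    ring
  have hci : IsIntegral ℤ (c (em s z)) := Pool.Agent.L7h15.SG.integral_map c (em_int z)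
  have hzi : IsIntegral ℤ (em s z) := em_int z
  obtain ⟨a, ha⟩ := rat_int (r := 2 * u) (by
    have : (((2 * u : ℚ)) : QB) = em s z + c (em s z) := by
      rw [hcz, huv]
      push_cast
      ring
    rw [this]
    exact hzi.add hci)
  obtain ⟨e, he⟩ := rat_int (r := 2 * v * D) (by
    have : (((2 * v * D : ℚ)) : QB) = -(s * (em s z - c (em s z))) := by
      rw [hcz, huv]
      push_cast
      linear_combination (2 * v : QB) * hs
    rw [this]
    exact ((s_int hs).mul (hzi.sub hci)).neg)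
  obtain ⟨n, hn⟩ := rat_int (r := u ^ 2 + D * v ^ 2) (by
    have : (((u ^ 2 + D * v ^ 2 : ℚ)) : QB) = em s z * c (em s z) := by
      rw [hcz, huv]
      push_cast
      linear_combination (v : QB) ^ 2 * hs
    rw [this]
    exact hzi.mul hci)
  exact ⟨u, v, a, e, n, huv, ha, he, hn⟩

lemma cop {K : Type} [CommRing K] {q k : ℕ} (h : Nat.Coprime q k) {z : K}
    (hd : (q : K) ∣ (k : K) * z) : (q : K) ∣ z :=
  (Nat.Coprime.cast (R := K) h).dvd_of_dvd_mul_left hd

/-- an odd prime `q`, which does not divide `D`, is a radical element -/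
theorem sq_dvd (hs : s ^ 2 = -(D : QB)) {q : ℕ} (hq : q.Prime) (h2 : q ≠ 2) (hqD : ¬ q ∣ D)
    {z : 𝓞 (KK s)} (h : (q : 𝓞 (KK s)) ∣ z * z) : (q : 𝓞 (KK s)) ∣ z := by
  have hD : D ≠ 0 := by
    rintro rfl
    exact hqD (dvd_zero q)
  obtain ⟨w, hw⟩ := h
  obtain ⟨u, v, a, e, n, hz, ha, he, hn⟩ := coord hs hD z
  obtain ⟨u', v', a', e', n', hz', ha', he', hn'⟩ := coord hs hD w
  have h1 : (((u ^ 2 - D * v ^ 2 : ℚ)) : QB) + ((2 * u * v : ℚ) : QB) * s =
      ((q * u' : ℚ) : QB) + ((q * v' : ℚ) : QB) * s := by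
    have h3 := congrArg (em s) hw
    rw [map_mul, map_mul, map_natCast, hz, hz'] at h3
    push_cast
    linear_combination h3 - (v : QB) ^ 2 * hs
  obtain ⟨h3, h4⟩ := coord_uniq hs hD h1
  have hqZ : Prime (q : ℤ) := Nat.prime_iff_prime_int.1 hq
  have hnn : n * n = q * (q * n') := by
    have : (n : ℚ) * n = q * (q * n') := by
      rw [hn, hn']
      have e1 : (u ^ 2 + D * v ^ 2) * (u ^ 2 + D * v ^ 2) =
        (u ^ 2 - D * v ^ 2) ^ 2 + D * (2 * u * v) ^ 2 := by ring
      rw [e1, h3, h4]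
      ring
    exact_mod_cast this
  have hqn : (q : ℤ) ∣ n := by
    rcases hqZ.dvd_or_dvd (Dvd.intro _ hnn.symm) with h | h <;> exact h
  have haa : a * a = q * a' + 2 * n := by
    have : (a : ℚ) * a = q * a' + 2 * n := by
      rw [ha, ha', hn]
      linear_combination 2 * h3
    exact_mod_cast this
  have hqa : (q : ℤ) ∣ a := by
    have h5 : (q : ℤ) ∣ a * a := by
      rw [haa]
      exact dvd_add (Dvd.intro _ rfl) (hqn.mul_left 2)
    rcases hqZ.dvd_or_dvd h5 with h | h <;> exact h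
  have hee : e * e = 4 * D * n - D * (a * a) := by
    have : (e : ℚ) * e = 4 * D * n - D * (a * a) := by
      rw [ha, he, hn]
      ring
    exact_mod_cast this
  have hqe : (q : ℤ) ∣ e := by
    have h5 : (q : ℤ) ∣ e * e := by
      rw [hee]
      exact dvd_sub (hqn.mul_left _) ((hqa.mul_left _).mul_left _)
    rcases hqZ.dvd_or_dvd h5 with h | h <;> exact h
  obtain ⟨a1, ha1⟩ := hqa
  obtain ⟨e1, he1⟩ := hqe
  obtain ⟨S, hS⟩ := exists_S hs
  have h6 : ((2 * D : ℕ) : 𝓞 (KK s)) * z = (q : 𝓞 (KK s)) * ((D : 𝓞 (KK s)) * a1 + e1 * S) := by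
    apply em_inj s
    rw [map_mul, map_mul, map_add, map_mul, map_mul, map_natCast, map_natCast, map_natCast,
      map_intCast, map_intCast, hS, hz]
    have e2 : (a : QB) = 2 * u := by exact_mod_cast congrArg (Rat.cast (K := QB)) ha
    have e3 : (e : QB) = 2 * v * D := by exact_mod_cast congrArg (Rat.cast (K := QB)) he
    have e4 : (a : QB) = q * a1 := by rw [ha1]; push_cast; ring
    have e5 : (e : QB) = q * e1 := by rw [he1]; push_cast; ring
    push_cast
    linear_combination -(D : QB) * e2 - s * e3 + (D : QB) * e4 + s * e5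
  have hc : Nat.Coprime q (2 * D) := by
    rw [Nat.Prime.coprime_iff_not_dvd hq, hq.dvd_mul]
    rintro (h | h)
    · exact h2 ((Nat.prime_dvd_prime_iff_eq hq Nat.prime_two).1 h)
    · exact hqD h
  exact cop hc (Dvd.intro _ h6.symm)

end Pool.Agent.L7h69.SGP
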